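import Mathlib.RingTheory.LaurentSeries
import Mathlib.RingTheory.Henselian
import Mathlib.RingTheory.AdicCompletion.Completeness
import Mathlib.RingTheory.Valuation.ValuationSubring
import Mathlib.RingTheory.PowerSeries.Inverse
import Mathlib.RingTheory.LocalRing.ResidueField.Basic
import Mathlib.Tactic

set_option autoImplicit false

/-!
# Composite valuation rings of Laurent series fields

For a valuation ring `A` of `F`, the ring of the power series over `F` with constant term in `A` is a
valuation ring of the field of Laurent series over `F`; it is henselian if `A` is.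
-/

namespace Pool.Agent.Q319.VF

open Polynomial IsLocalRing

noncomputable section

variable {F : Type} [Field F] (A : ValuationSubring F)

/-- the inclusion of the power series into the Laurent series -/
def io (F : Type) [Field F] : PowerSeries F →+* LaurentSeries F := HahnSeries.ofPowerSeries ℤ F

theorem io_inj : Function.Injective (io F) := HahnSeries.ofPowerSeries_injective

/-- the power series with constant term in `A` -/
def R0 : Subring (PowerSeries F) := A.toSubring.comap (PowerSeries.constantCoeff (R := F))

theorem mem_R0 (p : PowerSeries F) : p ∈ R0 A ↔ PowerSeries.constantCoeff p ∈ A := Iff.rfl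

theorem exists_form {x : LaurentSeries F} (hx : x ≠ 0) :
    ∃ u : PowerSeries F, PowerSeries.constantCoeff u ≠ 0 ∧
      x = HahnSeries.single x.order 1 * io F u := by
  refine ⟨x.powerSeriesPart, ?_, (LaurentSeries.single_order_mul_powerSeriesPart x).symm⟩
  rw [← PowerSeries.coeff_zero_eq_constantCoeff_apply, LaurentSeries.powerSeriesPart_coeff]
  simpa using HahnSeries.coeff_order_eq_zero.not.2 hx

theorem io_X_pow (n : ℕ) : io F (PowerSeries.X ^ n) = HahnSeries.single (n : ℤ) 1 :=
  HahnSeries.ofPowerSeries_X_pow n

theorem inv_io {u : PowerSeries F} (hu : PowerSeries.constantCoeff u ≠ 0) :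
    (io F u)⁻¹ = io F u⁻¹ := by
  have h : io F u * io F u⁻¹ = 1 := by
    rw [← map_mul, PowerSeries.mul_inv_cancel u hu, map_one]
  exact inv_eq_of_mul_eq_one_right h

/-- The composite valuation ring. -/
def lift : ValuationSubring (LaurentSeries F) :=
  { (R0 A).map (io F) with
    mem_or_inv_mem' := by
      intro x
      by_cases hx : x = 0
      · left
        exact ⟨0, (R0 A).zero_mem, by rw [hx, map_zero]⟩
      obtain ⟨u, hu, hxu⟩ := exists_form hx
      rcases lt_trichotomy x.order 0 with h | h | h
      · right
        obtain ⟨n, hn⟩ := Int.exists_eq_neg_ofNat h.le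
        have hn0 : n ≠ 0 := by rintro rfl; simp at hn; omega
        refine ⟨PowerSeries.X ^ n * u⁻¹, ?_, ?_⟩
        · show PowerSeries.constantCoeff _ ∈ A
          rw [map_mul, map_pow, PowerSeries.constantCoeff_X, zero_pow hn0, zero_mul]
          exact A.zero_mem
        · rw [map_mul, io_X_pow, hxu, mul_inv, inv_io hu, hn]
          congr 1
          rw [eq_comm, inv_eq_iff_eq_inv]
          apply eq_inv_of_mul_eq_one_left
          rw [HahnSeries.single_mul_single]
          simp
      · rw [h] at hxu
        have hx1 : x = io F u := by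
          rw [hxu]
          simp
        rcases A.mem_or_inv_mem (PowerSeries.constantCoeff u) with h1 | h1
        · left
          exact ⟨u, h1, hx1.symm⟩
        · right
          refine ⟨u⁻¹, ?_, by rw [hx1, inv_io hu]⟩
          show PowerSeries.constantCoeff u⁻¹ ∈ A
          rw [PowerSeries.constantCoeff_inv]
          exact h1
      · left
        obtain ⟨n, hn⟩ := Int.eq_ofNat_of_zero_le h.le
        have hn0 : n ≠ 0 := by rintro rfl; simp at hn; omega
        refine ⟨PowerSeries.X ^ n * u, ?_, ?_⟩
        · show PowerSeries.constantCoeff _ ∈ A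
          rw [map_mul, map_pow, PowerSeries.constantCoeff_X, zero_pow hn0, zero_mul]
          exact A.zero_mem
        · rw [map_mul, io_X_pow, ← hn]
          exact hxu.symm }

theorem mem_lift (x : LaurentSeries F) :
    x ∈ lift A ↔ ∃ p, PowerSeries.constantCoeff p ∈ A ∧ io F p = x := Iff.rfl

/-- the isomorphism of `lift A` with the ring of power series with constant term in `A` -/
def eq0 : R0 A ≃+* lift A := (R0 A).equivMapOfInjective (io F) io_inj

/-- elements of `lift A` as power series -/
def jj : lift A →+* PowerSeries F := (R0 A).subtype.comp (eq0 A).symm.toRingHom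

theorem jj_mem (x : lift A) : PowerSeries.constantCoeff (jj A x) ∈ A := ((eq0 A).symm x).2

theorem io_jj (x : lift A) : io F (jj A x) = x := by
  have h : eq0 A ((eq0 A).symm x) = x := (eq0 A).apply_symm_apply x
  exact congrArg Subtype.val h

theorem jj_inj : Function.Injective (jj A) := by
  intro x y h
  apply Subtype.ext
  rw [← io_jj, ← io_jj, h]

/-- elements of `lift A` from power series -/
def mkL (p : PowerSeries F) (hp : PowerSeries.constantCoeff p ∈ A) : lift A := eq0 A ⟨p, hp⟩

theorem jj_mkL (p : PowerSeries F) (hp : PowerSeries.constantCoeff p ∈ A) :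
    jj A (mkL A p hp) = p := by
  show ((eq0 A).symm (eq0 A ⟨p, hp⟩)).1 = p
  rw [RingEquiv.symm_apply_apply]

theorem mkL_val (p : PowerSeries F) (hp : PowerSeries.constantCoeff p ∈ A) :
    (mkL A p hp : LaurentSeries F) = io F p := rfl

/-- the constant term -/
def cc : lift A →+* A :=
  ((PowerSeries.constantCoeff (R := F)).comp (jj A)).codRestrict A.toSubring (jj_mem A)

theorem cc_val (x : lift A) : (cc A x : F) = PowerSeries.constantCoeff (jj A x) := rfl

theorem cc_surj : Function.Surjective (cc A) := by
  intro a
  refine ⟨mkL A (PowerSeries.C (a : F)) (by rw [PowerSeries.constantCoeff_C]; exact a.2), ?_⟩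
  apply Subtype.ext
  rw [cc_val, jj_mkL, PowerSeries.constantCoeff_C]

instance cc_local : IsLocalHom (cc A) where
  map_nonunit := by
    intro x hx
    obtain ⟨b, hb⟩ := hx.exists_right_inv
    have hb' : PowerSeries.constantCoeff (jj A x) * (b : F) = 1 := by
      rw [← cc_val]
      exact congrArg Subtype.val hb
    have h0 : PowerSeries.constantCoeff (jj A x) ≠ 0 := left_ne_zero_of_mul_eq_one hb'
    have hinv : PowerSeries.constantCoeff (jj A x)⁻¹ ∈ A := by
      rw [PowerSeries.constantCoeff_inv, inv_eq_of_mul_eq_one_right hb']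
      exact b.2
    refine IsUnit.of_mul_eq_one (mkL A (jj A x)⁻¹ hinv) ?_
    apply jj_inj
    rw [map_mul, jj_mkL, map_one, PowerSeries.mul_inv_cancel _ h0]

/-- The residue fields of `lift A` and of `A` are isomorphic. -/
theorem residue_iso : Nonempty (ResidueField (lift A) ≃+* ResidueField A) := by
  refine ⟨RingEquiv.ofBijective (ResidueField.map (cc A)) ⟨RingHom.injective _, ?_⟩⟩
  intro y
  obtain ⟨a, rfl⟩ := IsLocalRing.residue_surjective y
  obtain ⟨x, rfl⟩ := cc_surj A a
  exact ⟨IsLocalRing.residue _ x, rfl⟩

/-- `lift A` is henselian if `A` is. -/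
theorem henselian_lift [HenselianLocalRing A] : HenselianLocalRing (lift A) := by
  refine HenselianLocalRing.mk fun f hf a0 h1 h2 => ?_
  -- reduction
  have hm : (f.map (cc A)).Monic := hf.map _
  have e1 : (f.map (cc A)).eval (cc A a0) = cc A (f.eval a0) := by
    rw [eval_map, eval₂_at_apply]
  have e2 : (f.map (cc A)).derivative.eval (cc A a0) = cc A (f.derivative.eval a0) := by
    rw [derivative_map, eval_map, eval₂_at_apply]
  have h1' : (f.map (cc A)).eval (cc A a0) ∈ maximalIdeal A := by
    rw [e1, mem_maximalIdeal, mem_nonunits_iff]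
    intro h
    rw [mem_maximalIdeal, mem_nonunits_iff] at h1
    exact h1 (IsLocalHom.map_nonunit _ h)
  have h2' : IsUnit ((f.map (cc A)).derivative.eval (cc A a0)) := by
    rw [e2]
    exact h2.map _
  obtain ⟨b, hb1, hb2⟩ := HenselianLocalRing.is_henselian _ hm _ h1' h2'
  -- the derivative at `b`
  have hb3 : IsUnit ((f.map (cc A)).derivative.eval b) := by
    have h3 : (f.map (cc A)).derivative.eval b - (f.map (cc A)).derivative.eval (cc A a0) ∈
        maximalIdeal A :=
      Ideal.mem_of_dvd _ (sub_dvd_eval_sub _ _ _) hb2
    by_contra h4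
    have h5 : (f.map (cc A)).derivative.eval b ∈ maximalIdeal A := by
      rwa [mem_maximalIdeal, mem_nonunits_iff]
    have h6 : (f.map (cc A)).derivative.eval (cc A a0) ∈ maximalIdeal A := by
      have := Ideal.sub_mem _ h5 h3
      rwa [sub_sub_cancel] at this
    rw [mem_maximalIdeal, mem_nonunits_iff] at h6
    exact h6 h2'
  -- lifting along `F⟦X⟧ → F`
  set g := f.map (jj A) with hg
  have hgm : g.Monic := hf.map _
  have key : ∀ q : (lift A)[X], PowerSeries.constantCoeff ((q.map (jj A)).eval
      (PowerSeries.C (b : F))) = (((q.map (cc A)).eval b : A) : F) := by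
    intro q
    have e3 : PowerSeries.constantCoeff ((q.map (jj A)).eval (PowerSeries.C (b : F))) =
        (q.map ((PowerSeries.constantCoeff (R := F)).comp (jj A))).eval (b : F) := by
      rw [eval_map, eval_map, hom_eval₂]
      simp
    have e4 : (((q.map (cc A)).eval b : A) : F) =
        (q.map (A.subtype.comp (cc A))).eval (b : F) := by
      rw [eval_map, eval_map]
      exact hom_eval₂ q (cc A) A.subtype b
    rw [e3, e4]
    rfl
  have hensF : HenselianRing (PowerSeries F) (Ideal.span {(PowerSeries.X : PowerSeries F)}) :=
    inferInstance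
  have g1 : g.eval (PowerSeries.C (b : F)) ∈ Ideal.span {(PowerSeries.X : PowerSeries F)} := by
    rw [Ideal.mem_span_singleton, PowerSeries.X_dvd_iff, key, hb1]
    rfl
  have g2 : IsUnit (g.derivative.eval (PowerSeries.C (b : F))) := by
    rw [PowerSeries.isUnit_iff_constantCoeff, hg, derivative_map, key, isUnit_iff_ne_zero]
    rw [derivative_map] at hb3
    have := hb3.ne_zero
    intro h
    exact this (Subtype.ext h)
  obtain ⟨a, ha1, ha2⟩ := hensF.is_henselian g hgm _ g1 (g2.map _)
  rw [Ideal.mem_span_singleton, PowerSeries.X_dvd_iff, map_sub, PowerSeries.constantCoeff_C,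
    sub_eq_zero] at ha2
  have haA : PowerSeries.constantCoeff a ∈ A := by
    rw [ha2]
    exact b.2
  refine ⟨mkL A a haA, ?_, ?_⟩
  · apply jj_inj A
    rw [map_zero, ← eval₂_at_apply, jj_mkL, ← eval_map]
    exact ha1
  · have hc : cc A (mkL A a haA) = b := by
      apply Subtype.ext
      rw [cc_val, jj_mkL, ha2]
    rw [mem_maximalIdeal, mem_nonunits_iff]
    intro h
    have h7 := h.map (cc A)
    rw [map_sub, hc] at h7
    rw [mem_maximalIdeal, mem_nonunits_iff] at hb2
    exact hb2 h7

end

end Pool.Agent.Q319.VF
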