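import Mathlib.RingTheory.Valuation.ValuationSubring
import Mathlib.RingTheory.LocalRing.ResidueField.Basic
import Mathlib.RingTheory.Henselian
import Mathlib.Tactic

set_option autoImplicit false

/-!
# Many-sorted prenex sentences, standard fragments, valued fields as three-sorted structures
-/

namespace Pool.Agent.Q319.VF

/-- A many-sorted signature with constants, unary and binary function symbols and binary relation
symbols: `C s` are the constants of sort `s`, `F1 s r` the unary function symbols from sort `s` to
sort `r`, `F2 s t r` the binary function symbols with arguments of the sorts `s`, `t` and values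
of sort `r`, and `R2 s t` the relation symbols between the sorts `s` and `t`. -/
structure Sig where
  Srt : Type
  C : Srt → Type
  F1 : Srt → Srt → Type
  F2 : Srt → Srt → Srt → Type
  R2 : Srt → Srt → Type

/-- Structures for a many-sorted signature. -/
structure Str (S : Sig) where
  dom : S.Srt → Type
  c : ∀ {s}, S.C s → dom s
  f1 : ∀ {s r}, S.F1 s r → dom s → dom r
  f2 : ∀ {s t r}, S.F2 s t r → dom s → dom t → dom r
  r2 : ∀ {s t}, S.R2 s t → dom s → dom t → Prop

/-- Variables of sort `s` in the context `Δ` (the list of the sorts of the variables). -/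
inductive Var {T : Type} : List T → T → Type
  | zero {Δ : List T} {s : T} : Var (s :: Δ) s
  | succ {Δ : List T} {s t : T} : Var Δ s → Var (t :: Δ) s

/-- Terms in the context `Δ`. -/
inductive Tm (S : Sig) (Δ : List S.Srt) : S.Srt → Type
  | var {s : S.Srt} (x : Var Δ s) : Tm S Δ s
  | c {s : S.Srt} (a : S.C s) : Tm S Δ s
  | f1 {s r : S.Srt} (f : S.F1 s r) (t : Tm S Δ s) : Tm S Δ r
  | f2 {s s' r : S.Srt} (f : S.F2 s s' r) (t : Tm S Δ s) (u : Tm S Δ s') : Tm S Δ r

/-- Quantifier-free formulas (with equality for all sorts). -/
inductive QF (S : Sig) (Δ : List S.Srt) : Type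
  | eq {s : S.Srt} (t u : Tm S Δ s) : QF S Δ
  | r2 {s s' : S.Srt} (r : S.R2 s s') (t : Tm S Δ s) (u : Tm S Δ s') : QF S Δ
  | not (φ : QF S Δ) : QF S Δ
  | and (φ ψ : QF S Δ) : QF S Δ

/-- Prenex formulas; a quantifier binds a new first variable of the given sort. -/
inductive Pre (S : Sig) : List S.Srt → Type
  | qf {Δ : List S.Srt} (φ : QF S Δ) : Pre S Δ
  | ex {Δ : List S.Srt} (s : S.Srt) (φ : Pre S (s :: Δ)) : Pre S Δ
  | all {Δ : List S.Srt} (s : S.Srt) (φ : Pre S (s :: Δ)) : Pre S Δ

/-- Assignments for the variables of a context. -/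
inductive Asg {T : Type} (D : T → Type) : List T → Type
  | nil : Asg D []
  | cons {Δ : List T} {s : T} (a : D s) (ρ : Asg D Δ) : Asg D (s :: Δ)

/-- the value of a variable -/
def Asg.get {T : Type} {D : T → Type} : {Δ : List T} → {s : T} → Asg D Δ → Var Δ s → D s
  | _, _, .cons a _, .zero => a
  | _, _, .cons _ ρ, .succ x => ρ.get x

variable {S : Sig}

/-- the value of a term -/
def Tm.val (M : Str S) {Δ : List S.Srt} (ρ : Asg M.dom Δ) : {s : S.Srt} → Tm S Δ s → M.dom s
  | _, .var x => ρ.get x
  | _, .c a => M.c a
  | _, .f1 f t => M.f1 f (t.val M ρ)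
  | _, .f2 f t u => M.f2 f (t.val M ρ) (u.val M ρ)

/-- truth of quantifier-free formulas -/
def QF.Holds (M : Str S) {Δ : List S.Srt} (ρ : Asg M.dom Δ) : QF S Δ → Prop
  | .eq t u => t.val M ρ = u.val M ρ
  | .r2 r t u => M.r2 r (t.val M ρ) (u.val M ρ)
  | .not φ => ¬ φ.Holds M ρ
  | .and φ ψ => φ.Holds M ρ ∧ ψ.Holds M ρ

/-- truth of prenex formulas -/
def Pre.Holds (M : Str S) : {Δ : List S.Srt} → Asg M.dom Δ → Pre S Δ → Prop
  | _, ρ, .qf φ => φ.Holds M ρ
  | _, ρ, .ex s φ => ∃ a : M.dom s, φ.Holds M (.cons a ρ)
  | _, ρ, .all s φ => ∀ a : M.dom s, φ.Holds M (.cons a ρ)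

/-- The quantifier prefix as a word; `true` is `∃`, `false` is `∀`. -/
def Pre.prefixWord : {Δ : List S.Srt} → Pre S Δ → List Bool
  | _, .qf _ => []
  | _, .ex _ φ => true :: φ.prefixWord
  | _, .all _ φ => false :: φ.prefixWord

/-- The word consists of `n` alternating blocks (possibly empty) of which the first one consists of
letters `q`. -/
def Blocks : Bool → ℕ → List Bool → Prop
  | _, 0, w => w = []
  | q, n + 1, w => ∃ w₁ w₂ : List Bool, w = w₁ ++ w₂ ∧ (∀ b ∈ w₁, b = q) ∧ Blocks (!q) n w₂

/-- The standard fragment with `n` alternating blocks of quantifiers, the last one existential: the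
first block is existential if and only if `n` is odd. -/
def InFragment (n : ℕ) (φ : Pre S []) : Prop := Blocks (decide (n % 2 = 1)) n φ.prefixWord

/-- The theory `Th_Φ(M)` for the fragment `Φ` with `n` blocks. -/
def Th (n : ℕ) (M : Str S) : Set (Pre S []) := {φ | InFragment n φ ∧ φ.Holds M .nil}

/-- Isomorphisms of many-sorted structures. -/
structure StrIso (M N : Str S) where
  e : ∀ s, M.dom s ≃ N.dom s
  c : ∀ {s} (a : S.C s), e s (M.c a) = N.c a
  f1 : ∀ {s r} (f : S.F1 s r) (a : M.dom s), e r (M.f1 f a) = N.f1 f (e s a)
  f2 : ∀ {s t r} (f : S.F2 s t r) (a : M.dom s) (b : M.dom t),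
    e r (M.f2 f a b) = N.f2 f (e s a) (e t b)
  r2 : ∀ {s t} (r : S.R2 s t) (a : M.dom s) (b : M.dom t),
    M.r2 r a b ↔ N.r2 r (e s a) (e t b)

/-- transport of assignments -/
def Asg.map {T : Type} {D D' : T → Type} (e : ∀ s, D s → D' s) : {Δ : List T} → Asg D Δ → Asg D' Δ
  | _, .nil => .nil
  | _, .cons a ρ => .cons (e _ a) (ρ.map e)

theorem get_map {T : Type} {D D' : T → Type} (e : ∀ s, D s → D' s) {Δ : List T} (ρ : Asg D Δ)
    {s : T} (x : Var Δ s) : (ρ.map e).get x = e s (ρ.get x) := by
  induction ρ with
  | nil => cases x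
  | cons a ρ ih =>
    cases x with
    | zero => rfl
    | succ x => exact ih x

theorem val_iso {M N : Str S} (E : StrIso M N) {Δ : List S.Srt} (ρ : Asg M.dom Δ) {s : S.Srt}
    (t : Tm S Δ s) : E.e s (t.val M ρ) = t.val N (ρ.map fun s => E.e s) := by
  induction t with
  | var x => exact (get_map (fun s => ⇑(E.e s)) ρ x).symm
  | c a => exact E.c a
  | f1 f t ih => exact (E.f1 f _).trans (congrArg _ ih)
  | f2 f t u ih1 ih2 => exact (E.f2 f _ _).trans (congrArg₂ _ ih1 ih2)

theorem qf_iso {M N : Str S} (E : StrIso M N) {Δ : List S.Srt} (ρ : Asg M.dom Δ) (φ : QF S Δ) :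
    φ.Holds M ρ ↔ φ.Holds N (ρ.map fun s => E.e s) := by
  induction φ with
  | eq t u =>
    show t.val M ρ = u.val M ρ ↔ t.val N _ = u.val N _
    rw [← val_iso, ← val_iso, (E.e _).apply_eq_iff_eq]
  | r2 r t u =>
    show M.r2 r (t.val M ρ) (u.val M ρ) ↔ N.r2 r (t.val N _) (u.val N _)
    rw [E.r2, val_iso, val_iso]
  | not φ ih => exact not_congr ih
  | and φ ψ ih1 ih2 => exact and_congr ih1 ih2

theorem pre_iso {M N : Str S} (E : StrIso M N) {Δ : List S.Srt} (φ : Pre S Δ) :
    ∀ ρ : Asg M.dom Δ, φ.Holds M ρ ↔ φ.Holds N (ρ.map fun s => E.e s) := by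
  induction φ with
  | qf φ => exact fun ρ => qf_iso E ρ φ
  | ex s φ ih =>
    intro ρ
    constructor
    · rintro ⟨a, ha⟩
      exact ⟨E.e _ a, (ih _).1 ha⟩
    · rintro ⟨b, hb⟩
      refine ⟨(E.e _).symm b, ?_⟩
      rw [ih, Asg.map, Equiv.apply_symm_apply]
      exact hb
  | all s φ ih =>
    intro ρ
    constructor
    · intro h b
      have := (ih _).1 (h ((E.e _).symm b))
      rwa [Asg.map, Equiv.apply_symm_apply] at this
    · intro h a
      rw [ih]
      exact h _

theorem Th_iso {M N : Str S} (E : StrIso M N) (n : ℕ) : Th n M = Th n N := by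
  ext φ
  exact and_congr Iff.rfl (pre_iso E φ .nil)

/-! ### rings -/

/-- the constants `0`, `1` -/
inductive RC : Unit → Type
  | zero : RC ()
  | one : RC ()

/-- the unary function symbol `-` -/
inductive R1 : Unit → Unit → Type
  | neg : R1 () ()

/-- the binary function symbols `+`, `·` -/
inductive RR2 : Unit → Unit → Unit → Type
  | add : RR2 () () ()
  | mul : RR2 () () ()

/-- the language of rings -/
def SRing : Sig := ⟨Unit, RC, R1, RR2, fun _ _ => Empty⟩

/-- a commutative ring as a structure -/
def ringStr (R : Type) [CommRing R] : Str SRing where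
  dom _ := R
  c a := match a with
    | RC.zero => (0 : R)
    | RC.one => (1 : R)
  f1 f := match f with
    | R1.neg => fun x : R => -x
  f2 f := match f with
    | RR2.add => fun x y : R => x + y
    | RR2.mul => fun x y : R => x * y
  r2 r := r.elim

/-- isomorphic rings give isomorphic structures -/
def ringIso {R R' : Type} [CommRing R] [CommRing R'] (e : R ≃+* R') :
    StrIso (ringStr R) (ringStr R') where
  e _ := e.toEquiv
  c a := by
    cases a with
    | zero => exact map_zero e
    | one => exact map_one e
  f1 f a := by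
    cases f with
    | neg => exact map_neg e (show R from a)
  f2 f a b := by
    cases f with
    | add => exact map_add e (show R from a) (show R from b)
    | mul => exact map_mul e (show R from a) (show R from b)
  r2 r a b := (r : Empty).elim

/-! ### valued fields -/

/-- the sorts of the language of valued fields: the field, the residue field, the value group with
`∞` -/
inductive S3
  | fld | res | grp

/-- the constants of the language of valued fields: `0`, `1`, `ϖ` of the field sort, `0`, `1` of
the residue field sort, `0`, `∞` of the value group sort -/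
inductive VC : S3 → Type
  | fzero : VC .fld
  | fone : VC .fld
  | pi : VC .fld
  | rzero : VC .res
  | rone : VC .res
  | gzero : VC .grp
  | ginf : VC .grp

/-- the unary function symbols: `-` of the three sorts, the valuation and the residue map -/
inductive V1 : S3 → S3 → Type
  | fneg : V1 .fld .fld
  | rneg : V1 .res .res
  | gneg : V1 .grp .grp
  | val : V1 .fld .grp
  | res : V1 .fld .res

/-- the binary function symbols: `+`, `·` of the two field sorts, `+` of the value group sort -/
inductive V2 : S3 → S3 → S3 → Type
  | fadd : V2 .fld .fld .fld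
  | fmul : V2 .fld .fld .fld
  | radd : V2 .res .res .res
  | rmul : V2 .res .res .res
  | gadd : V2 .grp .grp .grp

/-- the relation symbol `<` of the value group sort -/
inductive VR : S3 → S3 → Type
  | lt : VR .grp .grp

/-- the three-sorted language of valued fields with the constant `ϖ` -/
def SVal : Sig := ⟨S3, VC, V1, V2, VR⟩

section

variable {K : Type} [Field K] (O : ValuationSubring K)

/-- The universes of the three sorts for a valued field given by its valuation ring: the field, the
residue field, the value group with zero of Mathlib. The latter is written multiplicatively and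
ordered in the opposite direction: `+` is multiplication, `0` is `1`, `∞` is `0`, `-` is
inversion, `<` is the opposite order. -/
def VDom : S3 → Type
  | .fld => K
  | .res => IsLocalRing.ResidueField O
  | .grp => O.ValueGroup

open Classical in
/-- The residue map, extended by `0` outside the valuation ring. -/
noncomputable def resMap (x : K) : IsLocalRing.ResidueField O :=
  if h : x ∈ O then IsLocalRing.residue O ⟨x, h⟩ else 0

/-- the constants of a valued field -/
noncomputable def vc (p : K) : {s : S3} → VC s → VDom O s
  | _, VC.fzero => (0 : K)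
  | _, VC.fone => (1 : K)
  | _, VC.pi => p
  | _, VC.rzero => (0 : IsLocalRing.ResidueField O)
  | _, VC.rone => (1 : IsLocalRing.ResidueField O)
  | _, VC.gzero => (1 : O.ValueGroup)
  | _, VC.ginf => (0 : O.ValueGroup)

/-- the unary functions of a valued field -/
noncomputable def v1 : {s r : S3} → V1 s r → VDom O s → VDom O r
  | _, _, V1.fneg => fun x : K => (-x : K)
  | _, _, V1.rneg => fun x : IsLocalRing.ResidueField O => (-x : IsLocalRing.ResidueField O)
  | _, _, V1.gneg => fun x : O.ValueGroup => (x⁻¹ : O.ValueGroup)
  | _, _, V1.val => fun x : K => O.valuation x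
  | _, _, V1.res => fun x : K => resMap O x

/-- the binary functions of a valued field -/
noncomputable def v2 : {s t r : S3} → V2 s t r → VDom O s → VDom O t → VDom O r
  | _, _, _, V2.fadd => fun x y : K => (x + y : K)
  | _, _, _, V2.fmul => fun x y : K => (x * y : K)
  | _, _, _, V2.radd => fun x y : IsLocalRing.ResidueField O => (x + y : IsLocalRing.ResidueField O)
  | _, _, _, V2.rmul => fun x y : IsLocalRing.ResidueField O => (x * y : IsLocalRing.ResidueField O)
  | _, _, _, V2.gadd => fun x y : O.ValueGroup => (x * y : O.ValueGroup)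

/-- the order of the value group -/
def vr : {s t : S3} → VR s t → VDom O s → VDom O t → Prop
  | _, _, VR.lt => fun x y : O.ValueGroup => y < x

/-- A valued field `(K, v)`, given by its valuation ring `O`, with an element `p` interpreting
`ϖ`, as a three-sorted structure. -/
noncomputable def valStr (p : K) : Str SVal where
  dom := VDom O
  c := vc O p
  f1 := v1 O
  f2 := v2 O
  r2 := vr O

/-- A uniformizer: an element of smallest positive value. -/
def IsUniformizer (p : K) : Prop :=
  p ≠ 0 ∧ O.valuation p < 1 ∧ ∀ z : K, O.valuation z < 1 → O.valuation z ≤ O.valuation p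

/-- `(K, v, p)` is a henselian nontrivially valued field of equal characteristic zero with
uniformizer `p`; the valuation `v` is given by its valuation ring `O`. -/
def IsHVF (p : K) : Prop :=
  CharZero K ∧ CharZero (IsLocalRing.ResidueField O) ∧ HenselianLocalRing O ∧ O ≠ ⊤ ∧
    IsUniformizer O p

end

end Pool.Agent.Q319.VF
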